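import Pool.Agent.H40.Tr3

set_option autoImplicit false

namespace Pool.Agent.Results.MP_634b21_lc.Model

open Pool.Agent.H40.Bspt Pool.Agent.H40.Jz Pool.Agent.H40.Js Set Filter Tr

abbrev V : Type := ZMod 2
abbrev G : Type := TG (⊤ : AddSubgroup (ℕ → V))

theorem h2 : ∀ v : V, v + v = 0 := by decide

def own (F : Filter (ℕ → V)) (m : ℕ) (x : ℕ → V) : Prop := ∀ t ∈ F, ∀ᶠ y in cofinite, y ∈ cyl m x → y ∈ t

theorem o1 {F : Filter (ℕ → V)} [F.NeBot] (h1 : F ≤ cofinite)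
    (h3 : ∀ t ∈ F, ∃ u : PS G (ℕ → V), u.1 ⊆ t ∧ u.1 ∈ F)
    (h4 : ∀ᶠ g in NF.F (Γ := G), Tendsto (g • ·) F F) : ∃ m x, own F m x := by
  obtain ⟨S, s1, s2, s3⟩ := ev.1 h4
  obtain ⟨m, hm⟩ := ex_pr (Z := ⊤) h2 s1 s2
  choose x hx using fun i => Ultrafilter.eq_pure_of_finite ((Ultrafilter.of F).map (· i))
  have k : ∀ n, cyl n x ∈ Ultrafilter.of F := fun n => (eventually_all_finite (finite_lt_nat n)).2
    fun i _ => (Ultrafilter.mem_map (s := {x i})).1 (hx i ▸ rfl)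
  refine ⟨m, x, fun t ht => ?_⟩
  obtain ⟨u, u1, u2⟩ := h3 t ht
  obtain ⟨n, W, B, -, b, c⟩ := symU u
  filter_upwards [b.eventually_cofinite_notMem] with y d e
  obtain ⟨g, g1, g2⟩ := hm (y - x) trivial fun i hi => by simp [e i hi]
  obtain ⟨w, a1, a2, a3, a4⟩ := Ultrafilter.nonempty_of_mem (inter_mem (k n) (Ultrafilter.of_le F
    (inter_mem (s3 g g2 u2) (h1 (g1.and (g.1.injective.tendsto_cofinite.eventually
      b.eventually_cofinite_notMem))))))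
  exact u1 (c _ a4 y d (sim_cyl (u := y) (fun i hi => by simp [a3, a1 i hi]) fun _ _ => rfl) a2)

theorem o2 {F F' : Filter (ℕ → V)} {m n : ℕ} {x : ℕ → V} (a : own F m x) (b : own F' n x) :
    ¬ Disjoint F F' := fun h => by
  obtain ⟨s, h1, t, h3, h4⟩ := Filter.disjoint_iff.1 h
  obtain ⟨y, c, d, e⟩ := ((frequently_cofinite_iff_infinite.2 (cyl_inf (max m n) x)).and_eventually
    ((a s h1).and (b t h3))).exists
  exact Set.disjoint_left.1 h4 (d (cyl_mono (le_max_left _ _) _ c))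
    (e (cyl_mono (le_max_right _ _) _ c))

theorem o3 {F F' : Filter (ℕ → V)} {m : ℕ} {x y : ℕ → V} {g : G} (a : own F m x)
    (b : Tendsto (g • ·) F F') (c : Ep g.1 (y - x)) : own F' m y := fun t ht => by
  filter_upwards [g.1⁻¹.injective.tendsto_cofinite.eventually (a _ (b ht)), c.inv] with w d e f
  have : g.1 (g.1⁻¹ w) ∈ t := d fun i hi => by simp [e, f i hi]
  simpa using this

theorem fin_un {X : Type} (m : ℕ) (S : (ℕ → V) → X → Prop)
    (h : ∀ y, {z | ∃ y' ∈ cyl m y, S y' z}.Finite) : {z | ∃ y, S y z}.Finite :=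
  (finite_iUnion fun p : Fin m → V => h fun i => if hi : i < m then p ⟨i, hi⟩ else 0).subset
    fun _ ⟨y, a⟩ => mem_iUnion.2 ⟨fun i => y i, y, fun _ hi => by simp [hi], a⟩

theorem result : ∃ (M : Type) (E : M → M → Prop), IsZF E ∧ (∀ x, ¬ Amorph E x) ∧ ¬ INSHC E := by
  have he : Emb (⊤ : AddSubgroup (ℕ → V)) id := ⟨Function.injective_id, fun _ _ => rfl⟩
  obtain ⟨J, hJ⟩ := ex_tr h2 he
  refine ⟨J.M, J.E, J.zf, fun a ha => ?_, fun h => ?_⟩
  · obtain ⟨g, h | ⟨n, u, B, hB, h⟩⟩ := hJ a ha.1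
    · refine h.nas (fun e => infinite_univ (α := ℕ) (J.fin_iff.1 e)) (JS.not_amorph
        (y := ps (range fun k : ℕ => 2 * k) (sym_all fun _ _ a => a)) (subset_univ _)
        (infinite_range_of_injective (mul_right_injective₀ two_ne_zero))
        (infinite_of_injective_forall_mem (f := fun k : ℕ => 2 * k + 1) (fun a b (e : 2 * a + 1 = 2 * b + 1) => by omega)
          fun k => ⟨trivial, fun ⟨l, (e : 2 * l = 2 * k + 1)⟩ => by omega⟩)) ha
    · refine h.nas (fun e => (cyl_inf n u).sdiff hB (by simpa [Emb.im] using J.finA.1 e))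
        (JS.not_amorph (t := .a) (y := ⟨_, sym0 (s0_diff (n := n + 1) (u := u) hB)⟩)
        (fun x a => ⟨x, ⟨cyl_mono n.le_succ u a.1, a.2⟩, rfl⟩) ((cyl_inf _ u).sdiff hB)
        (((cyl_inf (n + 1) (u + Pi.single n 1)).sdiff hB).mono fun x a => ⟨⟨x, ⟨fun i hi => ?_, a.2⟩,
          rfl⟩, fun b => ?_⟩)) ha
      · simpa [Pi.single_eq_of_ne hi.ne] using a.1 i (by omega)
      · simpa using (a.1 n n.lt_succ_self).symm.trans (b.1 n n.lt_succ_self)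
  obtain ⟨K, T, k, hc, hs⟩ := h (J.sA unA) fun e =>
    (cyl_inf 0 (0 : ℕ → V)).mono (subset_univ _) (J.finA.1 e)
  obtain ⟨F, f1, f2⟩ := JS.traces hc
  obtain ⟨f, hf⟩ := hc.2.2.2.1
  let R : J.M → Prop := fun z => J.E z K ∧ ∀ a, (k a).1 ≠ z
  have o : ∀ z, R z → ∃ m x, own (F z) m x := fun z hz => by
    obtain ⟨φ, h⟩ := J.zf.rel (R := fun x _ => x = z) (Df.eq' (Tm.var _) (Tm.const _)) K
      (J.ν (.w .n) (un _))
    have := (f1 z hz.1).1
    refine o1 ((f1 z hz.1).2.2.1 hz.2) (f1 z hz.1).2.2.2.1 ((f2 .n φ).mono fun g a => ?_)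
    obtain ⟨z', b, c⟩ := a z (0 : ℕ) ((h _ _).2 ⟨hz.1, J.mem'.2 trivial, rfl⟩)
    obtain rfl := ((h _ _).1 b).2.2
    exact c hz.1 hz.1
  have ex : ∀ z z' m n x, R z → R z' → own (F z) m x → own (F z') n x → z = z' :=
    fun z z' m n x a b c d => by_contra fun e => o2 c d ((f1 z a.1).2.2.2.2 z' b.1 e)
  obtain ⟨φ, h⟩ := J.zf.rel (R := fun z _ => ¬ ∃ x, J.E x (J.sA unA) ∧ App J.E f x z)
    (Df.neg (Df.ex' ((Df.mem' (Tm.var _) (Tm.const _)).and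
      (Df.app (Tm.const _) (Tm.var _) (Tm.var _))))) K (J.ν (.w .n) (un _))
  have r : ∀ z (n : ℕ), App J.E φ z (J.ν .n n) ↔ R z := fun z n => (h _ _).trans (and_congr_right'
    ⟨fun a b e => a.2 ⟨_, b.2, (hf b z).2 e.symm⟩, fun a => ⟨J.mem'.2 trivial, fun ⟨x, b, e⟩ =>
      a ⟨x, b⟩ ((hf ⟨x, b⟩ z).1 e).symm⟩⟩)
  obtain ⟨S, s1, s2, s3⟩ := ev.1 (f2 .n φ)
  obtain ⟨m0, hm⟩ := ex_pr (Z := ⊤) h2 s1 s2
  refine hs (JS.scat_of_fin hc ((fin_un m0 (fun y z => R z ∧ ∃ m, own (F z) m y) fun y => ?_).subset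
    fun z hz => (o z hz).elim fun m ⟨x, a⟩ => ⟨x, hz, m, a⟩))
  rcases eq_empty_or_nonempty {z | ∃ y' ∈ cyl m0 y, R z ∧ ∃ m, own (F z) m y'} with
    e | ⟨z0, y0, a1, a2, m, a3⟩
  · exact e ▸ finite_empty
  refine (fin_un m (fun y z => R z ∧ own (F z) m y) fun y => Subsingleton.finite
    fun z ⟨x, a, b, c⟩ z' ⟨x', a', b', c'⟩ => ex z z' m m y b b'
      (fun t ht => (c t ht).mono fun w d e => d fun i hi => (e i hi).trans (a i hi).symm)
      fun t ht => (c' t ht).mono fun w d e => d fun i hi => (e i hi).trans (a' i hi).symm).subset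
    fun z ⟨x, a, b, n, c⟩ => ?_
  obtain ⟨g, g1, g2⟩ := hm (x - y0) trivial fun i hi => by simp [a i hi, a1 i hi]
  obtain ⟨z', d, e⟩ := s3 g g2 z0 (0 : ℕ) ((r _ _).2 a2)
  have := o3 a3 (e a2.1 ((r _ _).1 d).1) g1
  exact ⟨x, b, ex z z' n m x b ((r _ _).1 d) c this ▸ this⟩

end Pool.Agent.Results.MP_634b21_lc.Model
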